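import Pool.Agent.Y208.BH.Stm

/-!
# BH-STAB: the stabilizer of a vector (by helper469)
-/

set_option autoImplicit false

open Finsupp

namespace Pool.Agent.Y469.BH

open Y208.BH

variable {R V I : Type} [Ring R] [AddCommGroup V] [Module R V]

theorem sne {M : Type} [Zero M] {a b : I} (h : a ≠ b) (v : M) : (single a v) b = 0 := by
  classical
  rw [single_apply, if_neg h]

/-- The column `ξ` times the vector `v`. -/
noncomputable def sm (ξ : I →₀ R) (v : V) : I →₀ V := ξ.mapRange (fun a => a • v) (zero_smul _ _)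

theorem sm_apply (ξ : I →₀ R) (v : V) (j : I) : sm ξ v j = ξ j • v := by
  simp [sm]

theorem tv_eq (ξ ζ : I →₀ R) (w : I →₀ V) : tv ξ ζ w = w + sm ξ (pr ζ w) := rfl

theorem sm_add (ξ : I →₀ R) (v v' : V) : sm ξ (v + v') = sm ξ v + sm ξ v' := by
  ext j; simp [sm_apply]

theorem add_sm (ξ ξ' : I →₀ R) (v : V) : sm (ξ + ξ') v = sm ξ v + sm ξ' v := by
  ext j; simp [sm_apply, add_smul]

theorem zero_sm (v : V) : sm (0 : I →₀ R) v = 0 := by
  ext j; simp [sm_apply]

theorem single_sm (m : I) (a : R) (v : V) : sm (single m a) v = single m (a • v) := by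
  simp [sm]

theorem pr_add (ζ : I →₀ R) (w w' : I →₀ V) : pr ζ (w + w') = pr ζ w + pr ζ w' := by
  simp [pr, Finsupp.sum, smul_add, Finset.sum_add_distrib]

theorem add_pr (ζ ζ' : I →₀ R) (w : I →₀ V) : pr (ζ + ζ') w = pr ζ w + pr ζ' w := by
  classical
  unfold pr
  exact Finsupp.sum_add_index' (fun _ => zero_smul _ _) (fun _ _ _ => add_smul _ _ _)

theorem single_pr (m : I) (a : R) (w : I →₀ V) : pr (single m a) w = a • w m := by
  unfold pr
  exact Finsupp.sum_single_index (zero_smul _ _)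

theorem pr_sm (ζ ξ : I →₀ R) (v : V) : pr ζ (sm ξ v) = pr ζ ξ • v := by
  simp only [pr, Finsupp.sum, sm_apply, Finset.sum_smul, smul_eq_mul, mul_smul]

theorem pr_single (ζ : I →₀ R) (m : I) (v : V) : pr ζ (single m v) = ζ m • v := by
  classical
  unfold pr Finsupp.sum
  rw [Finset.sum_eq_single m]
  · simp
  · intro j _ hj
    simp [hj.symm]
  · intro h
    simp only [Finsupp.notMem_support_iff.1 h, zero_smul]

/-- `w ↦ w + e_m η(w)` -/
noncomputable def EP (m : I) (η : I →₀ R) (h : η m = 0) : Equiv.Perm (I →₀ V) where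
  toFun w := w + single m (pr η w)
  invFun w := w - single m (pr η w)
  left_inv w := by
    simp only [pr_add, pr_single, h, zero_smul, add_zero, add_sub_cancel_right]
  right_inv w := by
    have : pr η (w - single m (pr η w)) = pr η w := by
      rw [sub_eq_add_neg, ← single_neg, pr_add, pr_single, h, zero_smul, add_zero]
    simp only [this, sub_add_cancel]

theorem EP_apply (m : I) (η : I →₀ R) (h : η m = 0) (w : I →₀ V) :
    EP m η h w = w + single m (pr η w) := rfl

/-- `w ↦ w + ρ w_m` -/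
noncomputable def TP (m : I) (ρ : I →₀ R) (h : ρ m = 0) : Equiv.Perm (I →₀ V) where
  toFun w := w + sm ρ (w m)
  invFun w := w - sm ρ (w m)
  left_inv w := by
    simp [sm_apply, h]
  right_inv w := by
    simp [sm_apply, h]

theorem TP_apply (m : I) (ρ : I →₀ R) (h : ρ m = 0) (w : I →₀ V) :
    TP m ρ h w = w + sm ρ (w m) := rfl

/-- The exchange of the coordinates. -/
noncomputable def sw (R : Type) {V I : Type} [Ring R] [AddCommGroup V] [Module R V] (a b : I) :
    Equiv.Perm (I →₀ V) := el a b (1 : R) * el b a (1 : R) * el a b (1 : R)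

theorem el_mem {v0 : V} {m p q : I} {r : R} (h : p ≠ q) (h' : q ≠ m ∨ r • v0 = 0) :
    (el p q r : Equiv.Perm (I →₀ V)) ∈ PS R V I v0 m :=
  Subgroup.subset_closure ⟨p, q, r, h, h', rfl⟩

theorem TP_mem (v0 : V) (m : I) (σ : I →₀ R) : σ m = 0 → (∀ j, σ j • v0 = 0) →
    ∃ g ∈ PS R V I v0 m, ∀ w, g w = w + sm σ (w m) := by
  classical
  induction σ using Finsupp.induction with
  | zero => exact fun _ _ => ⟨1, Subgroup.one_mem _, fun w => by rw [zero_sm, add_zero]; rfl⟩
  | single_add a b f ha hb ih =>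
    intro h hs
    have hfa : f a = 0 := Finsupp.notMem_support_iff.1 ha
    have ham : a ≠ m := by
      rintro rfl
      rw [Finsupp.add_apply, single_eq_same, hfa, add_zero] at h
      exact hb h
    have hfm : f m = 0 := by
      rw [Finsupp.add_apply, single_apply, if_neg ham, zero_add] at h
      exact h
    obtain ⟨g, hg, hw⟩ := ih hfm (fun j => by
      by_cases hj : j = a
      · rw [hj, hfa, zero_smul]
      · have := hs j
        rwa [Finsupp.add_apply, single_apply, if_neg (fun e => hj e.symm), zero_add] at this)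
    have hb0 : b • v0 = 0 := by
      have := hs a
      rwa [Finsupp.add_apply, single_eq_same, hfa, add_zero] at this
    refine ⟨el a m b * g, Subgroup.mul_mem _ (el_mem ham (Or.inr hb0)) hg, fun w => ?_⟩
    rw [Equiv.Perm.mul_apply, el_apply ham, hw, add_sm, single_sm, Finsupp.add_apply, sm_apply, hfm,
      zero_smul, add_zero, add_assoc, add_comm (sm f (w m))]

section char
variable (hR : ∀ a : R, a + a = 0)
include hR

theorem dV (v : V) : v + v = 0 := by
  have := congrArg (fun a : R => a • v) (hR 1)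
  simpa [add_smul] using this

theorem dW (w : I →₀ V) : w + w = 0 := by
  ext j
  exact dV hR (w j)

theorem AB (hTV : S_TV) [Infinite I] (v0 : V) (m : I) (η η' ρ ρ' : I →₀ R) (u : I →₀ V)
    (h1 : η m = 0) (h1' : η' m = 0) (h2 : ρ m = 0) (h2' : ρ' m = 0) (h3 : pr η u = v0)
    (h3' : pr η' u = v0) (h4 : sm ρ v0 = u) (h4' : sm ρ' v0 = u) :
    (EP m η h1 * TP m ρ h2 : Equiv.Perm (I →₀ V))⁻¹ * (EP m η' h1' * TP m ρ' h2') ∈
      PS R V I v0 m := by
  obtain ⟨g2, hg2, hw2⟩ := TP_mem v0 m (ρ + ρ') (by rw [Finsupp.add_apply, h2, h2', add_zero]) (by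
    intro j
    rw [← sm_apply, add_sm, h4, h4', Finsupp.add_apply]
    exact dV hR (u j))
  obtain ⟨g1, hg1, hw1⟩ := hTV R V I v0 m (single m 1 + ρ)
    ((η + η') + single m (pr (η + η') ρ)) (by
      rw [add_pr, pr_add, pr_single, single_pr, Finsupp.add_apply, Finsupp.add_apply, h1, h1', h2, single_eq_same]
      simp only [add_zero, zero_add, smul_eq_mul, mul_one]
      exact hR _) (by
      rw [Finsupp.add_apply, Finsupp.add_apply, h1, h1', single_eq_same, add_zero, zero_add, ← pr_sm, h4, add_pr,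
        h3, h3']
      exact dV hR v0)
  have key : (EP m η' h1' * TP m ρ' h2' : Equiv.Perm (I →₀ V)) = EP m η h1 * TP m ρ h2 * (g1 * g2)
      := by
    apply Equiv.ext
    intro w
    simp only [Equiv.Perm.mul_apply]
    have e2m : (g2 w) m = w m := by
      rw [hw2, Finsupp.add_apply, sm_apply, Finsupp.add_apply, h2, h2', add_zero, zero_smul, add_zero]
    set t : V := pr (η + η') w + pr (η + η') ρ' • w m with ht
    have et : pr ((η + η') + single m (pr (η + η') ρ)) (g2 w) = t := by
      rw [add_pr (η + η'), single_pr, e2m, hw2, pr_add, pr_sm, pr_add, ht]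
      have e1 : pr (η + η') w + (pr (η + η') ρ + pr (η + η') ρ') • w m + pr (η + η') ρ • w m =
          pr (η + η') w + pr (η + η') ρ' • w m + (pr (η + η') ρ • w m + pr (η + η') ρ • w m) := by
        rw [add_smul]
        abel
      rw [e1, dV hR, add_zero]
    have e3 : g1 (g2 w) = w + sm ρ (w m) + sm ρ' (w m) + (single m t + sm ρ t) := by
      rw [hw1, tv_eq, et, hw2, add_sm ρ, add_sm (single m 1), single_sm, one_smul]
      abel
    have e3m : (g1 (g2 w)) m = w m + t := by
      rw [e3]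
      simp [sm_apply, h2, h2']
    have e4 : TP m ρ h2 (g1 (g2 w)) = w + sm ρ' (w m) + single m t := by
      rw [TP_apply, e3m, e3, sm_add ρ (w m) t]
      have e1 : w + sm ρ (w m) + sm ρ' (w m) + (single m t + sm ρ t) + (sm ρ (w m) + sm ρ t) =
          w + sm ρ' (w m) + single m t + ((sm ρ (w m) + sm ρ (w m)) + (sm ρ t + sm ρ t)) := by
        abel
      rw [e1, dW hR, dW hR, add_zero, add_zero]
    rw [e4, EP_apply, EP_apply, TP_apply, pr_add, pr_add, pr_add, pr_single, h1, zero_smul,
      add_zero, pr_sm, pr_sm, add_assoc (w + sm ρ' (w m)), ← single_add]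
    congr 2
    rw [ht, add_pr, add_pr, add_smul]
    have e1 : pr η w + pr η' w + (pr η ρ' • w m + pr η' ρ' • w m) + (pr η w + pr η ρ' • w m) =
        pr η' w + pr η' ρ' • w m + ((pr η w + pr η w) + (pr η ρ' • w m + pr η ρ' • w m)) := by
      abel
    rw [e1, dV hR, dV hR, add_zero, add_zero]
  rw [key, inv_mul_cancel_left]
  exact Subgroup.mul_mem _ hg1 hg2

theorem sw_apply {a b : I} (hab : a ≠ b) [DecidableEq I] (w : I →₀ V) :
    sw R a b w = Finsupp.equivMapDomain (Equiv.swap a b) w := by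
  have e1 : sw R a b w = w + single a (w b) + single b (w a + w b) + single a (w a) := by
    unfold sw
    rw [Equiv.Perm.mul_apply, Equiv.Perm.mul_apply, el_apply hab, el_apply hab.symm, el_apply hab]
    simp only [one_smul, Finsupp.add_apply, single_apply, if_neg hab, if_true, add_zero]
    have : w b + (w a + w b) = w a := by
      have e : w b + (w a + w b) = w a + (w b + w b) := by abel
      rw [e, dV hR, add_zero]
    rw [this]
  rw [e1]
  ext j
  rw [equivMapDomain_apply, Equiv.symm_swap]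
  simp only [Finsupp.add_apply, single_apply]
  by_cases hja : j = a
  · subst hja
    rw [Equiv.swap_apply_left, if_pos rfl, if_neg hab.symm, if_pos rfl]
    have e : w j + w b + 0 + w j = w b + (w j + w j) := by abel
    rw [e, dV hR, add_zero]
  · by_cases hjb : j = b
    · subst hjb
      rw [Equiv.swap_apply_right, if_neg hab, if_pos rfl, if_neg hab]
      have e : w j + 0 + (w a + w j) + 0 = w a + (w j + w j) := by abel
      rw [e, dV hR, add_zero]
    · rw [Equiv.swap_apply_of_ne_of_ne hja hjb, if_neg (Ne.symm hja), if_neg (Ne.symm hjb),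
        if_neg (Ne.symm hja)]
      simp

theorem sw_conj {a b : I} (hab : a ≠ b) [DecidableEq I] {p q : I} (hpq : p ≠ q) (r : R) :
    (sw R a b * el p q r * (sw R a b)⁻¹ : Equiv.Perm (I →₀ V)) =
      el (Equiv.swap a b p) (Equiv.swap a b q) r := by
  rw [mul_inv_eq_iff_eq_mul]
  apply Equiv.ext
  intro w
  rw [Equiv.Perm.mul_apply, Equiv.Perm.mul_apply, el_apply hpq,
    el_apply ((Equiv.swap a b).injective.ne hpq), sw_apply hR hab, sw_apply hR hab]
  rw [equivMapDomain_apply, Equiv.symm_apply_apply]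
  simp only [equivMapDomain_eq_mapDomain, mapDomain_add, mapDomain_single]

theorem sw_conj_mem {v0 : V} {a b : I} (hab : a ≠ b) {g : Equiv.Perm (I →₀ V)}
    (hg : g ∈ PS R V I v0 a) : sw R a b * g * (sw R a b)⁻¹ ∈ PS R V I v0 b := by
  classical
  have h1 : PS R V I v0 a ≤ (PS R V I v0 b).comap (MulAut.conj (sw R a b)).toMonoidHom := by
    unfold PS
    rw [Subgroup.closure_le]
    rintro _ ⟨p, q, r, hpq, h, rfl⟩
    show sw R a b * el p q r * (sw R a b)⁻¹ ∈ PS R V I v0 b
    rw [sw_conj hR hab hpq]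
    refine el_mem ((Equiv.swap a b).injective.ne hpq) (h.imp_left fun hq hqb => hq ?_)
    rw [← Equiv.swap_apply_self a b q, hqb, Equiv.swap_apply_right]
  exact h1 hg

end char

theorem el_inv {p q : I} (h : p ≠ q) (r : R) :
    (el p q r : Equiv.Perm (I →₀ V))⁻¹ = el p q (-r) := by
  rw [inv_eq_iff_mul_eq_one, ← (st_el R V I).add p q h, add_neg_cancel]
  apply Equiv.ext
  intro w
  rw [el_apply h, zero_smul, single_zero, add_zero]
  rfl

/-- The claim. -/
def Cl (R : Type) {V I : Type} [Ring R] [AddCommGroup V] [Module R V] (v0 : V) (o : I)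
    (g : Equiv.Perm (I →₀ V)) : Prop :=
  ∃ η ρ : I →₀ R, pr η (g (single o v0)) = v0 ∧ sm ρ v0 = g (single o v0) ∧
    ∃ F : Finset I, ∀ m, m ∉ F → ∃ (h : η m = 0) (h' : ρ m = 0), m ≠ o ∧
      (EP m η h * TP m ρ h')⁻¹ * g * sw R m o ∈ PS R V I v0 m

theorem pr_el {p q : I} (hpq : p ≠ q) (r : R) (η : I →₀ R) (w : I →₀ V) :
    pr (η + single q (-(η p * r))) (el p q r w) = pr η w := by
  rw [el_apply hpq, add_pr, single_pr, pr_add, pr_single, Finsupp.add_apply, sne hpq,
    add_zero, neg_smul, mul_smul, add_neg_cancel_right]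

theorem EP_el {p q m : I} (hpq : p ≠ q) (hq : m ≠ q) (r : R) (η : I →₀ R)
    (h : η m = 0) (h' : (η + single q (-(η p * r))) m = 0) :
    (EP m (η + single q (-(η p * r))) h' * el p q r : Equiv.Perm (I →₀ V)) =
      el p q r * EP m η h := by
  apply Equiv.ext
  intro w
  rw [Equiv.Perm.mul_apply, Equiv.Perm.mul_apply, EP_apply, pr_el hpq, EP_apply, el_apply hpq,
    el_apply hpq, Finsupp.add_apply, sne hq, add_zero]
  abel

theorem TP_el {p q m : I} (hpq : p ≠ q) (hp : m ≠ p) (r : R) (ρ : I →₀ R)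
    (h : ρ m = 0) (h' : (ρ + single p (r * ρ q)) m = 0) :
    (TP m (ρ + single p (r * ρ q)) h' * el p q r : Equiv.Perm (I →₀ V)) =
      el p q r * TP m ρ h := by
  apply Equiv.ext
  intro w
  rw [Equiv.Perm.mul_apply, Equiv.Perm.mul_apply, TP_apply, TP_apply, el_apply hpq,
    el_apply hpq, Finsupp.add_apply, Finsupp.add_apply, sne hp.symm, add_zero, add_sm,
    single_sm, sm_apply, smul_add, single_add, mul_smul]
  abel

theorem Cl_step {v0 : V} {o p q : I} (hpq : p ≠ q) (r : R) {g : Equiv.Perm (I →₀ V)}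
    (h : Cl R v0 o g) : Cl R v0 o (el p q r * g) := by
  classical
  obtain ⟨η, ρ, h1, h2, F, hF⟩ := h
  refine ⟨η + single q (-(η p * r)), ρ + single p (r * ρ q), ?_, ?_, F ∪ {p, q}, fun m hm => ?_⟩
  · rw [Equiv.Perm.mul_apply, pr_el hpq, h1]
  · rw [Equiv.Perm.mul_apply, ← h2, el_apply hpq, add_sm, single_sm, sm_apply, mul_smul]
  · rw [Finset.mem_union, not_or, Finset.mem_insert, Finset.mem_singleton, not_or] at hm
    obtain ⟨h3, h4, h5, h6⟩ := hF m hm.1
    have h3' : (η + single q (-(η p * r))) m = 0 := by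
      rw [Finsupp.add_apply, h3, single_apply, if_neg (Ne.symm hm.2.2), add_zero]
    have h4' : (ρ + single p (r * ρ q)) m = 0 := by
      rw [Finsupp.add_apply, h4, single_apply, if_neg (Ne.symm hm.2.1), add_zero]
    refine ⟨h3', h4', h5, ?_⟩
    have e1 : (EP m (η + single q (-(η p * r))) h3' * TP m (ρ + single p (r * ρ q)) h4' :
        Equiv.Perm (I →₀ V)) = el p q r * (EP m η h3 * TP m ρ h4) * (el p q r)⁻¹ := by
      rw [eq_mul_inv_iff_mul_eq, mul_assoc, TP_el hpq hm.2.1 r ρ h4 h4', ← mul_assoc,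
        EP_el hpq hm.2.2 r η h3 h3', mul_assoc]
    have e2 : (el p q r * (EP m η h3 * TP m ρ h4) * (el p q r)⁻¹ : Equiv.Perm (I →₀ V))⁻¹ *
        (el p q r * g) * sw R m o =
        el p q r * ((EP m η h3 * TP m ρ h4)⁻¹ * g * sw R m o) := by
      group
    rw [e1, e2]
    exact Subgroup.mul_mem _ (el_mem hpq (Or.inl (Ne.symm hm.2.2))) h6

theorem start {v0 : V} {o m : I} (hR : ∀ a : R, a + a = 0) (hm : m ≠ o)
    (h : (single o 1 : I →₀ R) m = 0) :
    (EP m (single o 1) h * TP m (single o 1) h : Equiv.Perm (I →₀ V))⁻¹ * sw R m o ∈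
      PS R V I v0 m := by
  have e1 : (EP m (single o 1) h : Equiv.Perm (I →₀ V)) = el m o (1 : R) := by
    apply Equiv.ext
    intro w
    rw [EP_apply, el_apply hm, single_pr]
  have e2 : (TP m (single o 1) h : Equiv.Perm (I →₀ V)) = el o m (1 : R) := by
    apply Equiv.ext
    intro w
    rw [TP_apply, el_apply hm.symm, single_sm]
  have e3 : ∀ p q : I, p ≠ q →
      (el p q (1 : R) : Equiv.Perm (I →₀ V))⁻¹ = el p q (1 : R) := by
    intro p q hpq
    rw [el_inv hpq]
    congr 1
    exact neg_eq_of_add_eq_zero_left (hR 1)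
  have e4 : (el m o (1 : R) * el o m (1 : R) : Equiv.Perm (I →₀ V))⁻¹ * sw R m o = el m o (1 : R) := by
    unfold sw
    rw [mul_inv_rev, e3 m o hm, e3 o m hm.symm]
    have e5 : (el m o (1 : R) * el m o (1 : R) : Equiv.Perm (I →₀ V)) = 1 := by
      nth_rewrite 1 [← e3 m o hm]
      exact inv_mul_cancel _
    have e6 : (el o m (1 : R) * el o m (1 : R) : Equiv.Perm (I →₀ V)) = 1 := by
      nth_rewrite 1 [← e3 o m hm.symm]
      exact inv_mul_cancel _
    calc (el o m (1 : R) * el m o (1 : R) *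
        (el m o (1 : R) * el o m (1 : R) * el m o (1 : R)) : Equiv.Perm (I →₀ V))
        = el o m (1 : R) * (el m o (1 : R) * el m o (1 : R)) * el o m (1 : R) * el m o (1 : R) := by
          simp only [mul_assoc]
      _ = el m o (1 : R) := by rw [e5, mul_one, e6, one_mul]
  rw [e1, e2, e4]
  exact el_mem hm (Or.inl hm.symm)

theorem Cl_all {v0 : V} {o : I} (hR : ∀ a : R, a + a = 0) {g : Equiv.Perm (I →₀ V)}
    (hg : g ∈ EG R V I) : Cl R v0 o g := by
  classical
  unfold EG at hg
  induction hg using Subgroup.closure_induction_left with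
  | one =>
    refine ⟨single o 1, single o 1, ?_, ?_, {o}, fun m hm => ?_⟩
    · rw [Equiv.Perm.one_apply, single_pr, single_eq_same, one_smul]
    · rw [Equiv.Perm.one_apply, single_sm, one_smul]
    · rw [Finset.mem_singleton] at hm
      have h : (single o 1 : I →₀ R) m = 0 := by
        rw [single_apply, if_neg (Ne.symm hm)]
      refine ⟨h, h, hm, ?_⟩
      rw [mul_one]
      exact start hR hm h
  | mul_left x hx y hy ih =>
    obtain ⟨p, q, r, hpq, rfl⟩ := hx
    exact Cl_step hpq r ih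
  | inv_mul_cancel x hx y hy ih =>
    obtain ⟨p, q, r, hpq, rfl⟩ := hx
    rw [el_inv hpq]
    exact Cl_step hpq (-r) ih

/-- **BH-STAB.** -/
theorem t_STAB : S_TV → S_STAB := by
  intro hTV R V I _ _ _ _ v0 hG o g hg hgo
  classical
  have hR : ∀ a : R, a + a = 0 := fun a => by
    have := hG.two
    rw [← two_mul, this, zero_mul]
  obtain ⟨η, ρ, h1, h2, F, hF⟩ := Cl_all (v0 := v0) (o := o) hR hg
  obtain ⟨m, hm⟩ := Infinite.exists_notMem_finset F
  obtain ⟨h3, h4, h5, h6⟩ := hF m hm
  rw [hgo] at h1 h2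
  have h : (single o 1 : I →₀ R) m = 0 := by
    rw [single_apply, if_neg (Ne.symm h5)]
  have h7 := start (v0 := v0) hR h5 h
  have h8 := AB hR hTV v0 m (single o 1) η (single o 1) ρ (single o v0) h h3 h h4
    (by rw [single_pr, single_eq_same, one_smul]) h1 (by rw [single_sm, one_smul]) h2
  have h9 := Subgroup.mul_mem _ (Subgroup.inv_mem _ h7) (Subgroup.mul_mem _ h8 h6)
  have e1 : ((EP m (single o 1) h * TP m (single o 1) h : Equiv.Perm (I →₀ V))⁻¹ * sw R m o)⁻¹ *
      ((EP m (single o 1) h * TP m (single o 1) h)⁻¹ * (EP m η h3 * TP m ρ h4) *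
        ((EP m η h3 * TP m ρ h4)⁻¹ * g * sw R m o)) = (sw R m o)⁻¹ * g * sw R m o := by
    group
  rw [e1] at h9
  have h10 := sw_conj_mem hR h5 h9
  have e2 : sw R m o * ((sw R m o)⁻¹ * g * sw R m o) * (sw R m o)⁻¹ = g := by group
  rwa [e2] at h10

end Pool.Agent.Y469.BH
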